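import Mathlib

set_option autoImplicit false

/-!
# Affine core of `MP_7f22d3_co`

`S` is a finite set of affine linear functions `b + c Y` (pairs `(b, c)`) with pairwise distinct
slopes, any two of which agree at a point of the finite set `D`.  In characteristic zero, if one of
them (say the zero function) meets, at *every* point of `D`, some other member of `S`, then `D` has
exactly one element.

Proof: interpolation produces a polynomial vector field `A ∂_X + Q ∂_Y`, `Q = ∏ (Y - y)`, tangent to
all the lines `X = b + c Y`; the residues of its linearisation along the zero line are all `1`, and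
their sum is `1` (the Camacho-Sad index formula for this line, made explicit).
-/

open Polynomial

namespace Pool.Agent.H.MP7f22d3

variable {K : Type*} [Field K]

/-- total degree at most `n`, for polynomials in `X` (outer variable) and `Y` (inner variable) -/
def TD (E : K[X][X]) (n : ℕ) : Prop := ∀ p q : ℕ, n < p + q → (E.coeff p).coeff q = 0

theorem TD.mono {E : K[X][X]} {m n : ℕ} (h : TD E m) (hmn : m ≤ n) : TD E n :=
  fun p q hpq => h p q (lt_of_le_of_lt hmn hpq)

theorem TD_zero (n : ℕ) : TD (0 : K[X][X]) n := fun p q _ => by simp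

theorem TD.sub {E F : K[X][X]} {n : ℕ} (hE : TD E n) (hF : TD F n) : TD (E - F) n := by
  intro p q hpq
  simp [hE p q hpq, hF p q hpq]

theorem TD.mul {E F : K[X][X]} {m n : ℕ} (hE : TD E m) (hF : TD F n) : TD (E * F) (m + n) := by
  intro p q hpq
  rw [coeff_mul, finsetSum_coeff]
  refine Finset.sum_eq_zero fun x hx => ?_
  rw [coeff_mul]
  refine Finset.sum_eq_zero fun z hz => ?_
  rw [Finset.HasAntidiagonal.mem_antidiagonal] at hx hz
  by_cases h : m < x.1 + z.1
  · rw [hE _ _ h, zero_mul]
  · have h2 : n < x.2 + z.2 := by omega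
    rw [hF _ _ h2, mul_zero]

theorem TD_C {γ : K[X]} {n : ℕ} (h : γ.natDegree ≤ n) : TD (C γ : K[X][X]) n := by
  intro p q hpq
  rw [coeff_C]
  split_ifs with hp
  · exact coeff_eq_zero_of_natDegree_lt (by omega)
  · simp

theorem TD_X_sub_C {f : K[X]} (h : f.natDegree ≤ 1) : TD (X - C f : K[X][X]) 1 := by
  intro p q hpq
  rw [coeff_sub, coeff_X, coeff_C]
  rcases Nat.lt_or_ge p 1 with hp | hp
  · have h0 : p = 0 := by omega
    subst h0
    simp only [coeff_sub]
    have : f.coeff q = 0 := coeff_eq_zero_of_natDegree_lt (by omega)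
    simp [this]
  · rcases Nat.eq_or_lt_of_le hp with h1 | h1
    · subst h1
      have hq : q ≠ 0 := by omega
      simp [coeff_one, hq]
    · have h2 : ¬ (1 = p) := by omega
      have h3 : ¬ (p = 0) := by omega
      simp [h2, h3]

theorem TD_prod {ι : Type*} (s : Finset ι) (f : ι → K[X]) (h : ∀ i ∈ s, (f i).natDegree ≤ 1) :
    TD (∏ i ∈ s, (X - C (f i)) : K[X][X]) s.card := by
  classical
  induction s using Finset.induction_on with
  | empty =>
    intro p q hpq
    rw [Finset.prod_empty, coeff_one]
    split_ifs with hp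
    · rw [coeff_one, if_neg]
      simp at hpq
      omega
    · simp
  | insert a s ha ih =>
    rw [Finset.prod_insert ha, Finset.card_insert_of_notMem ha, Nat.add_comm]
    exact (TD_X_sub_C (h a (Finset.mem_insert_self a s))).mul
      (ih fun i hi => h i (Finset.mem_insert_of_mem hi))

theorem TD.natDegree_eval {E : K[X][X]} {n : ℕ} (hE : TD E n) {f : K[X]} (hf : f.natDegree ≤ 1) :
    (E.eval f).natDegree ≤ n := by
  rw [eval_eq_sum_range]
  refine natDegree_sum_le_of_forall_le _ _ fun p _ => ?_
  by_cases h0 : E.coeff p = 0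
  · simp [h0]
  · have hp : (E.coeff p).natDegree + p ≤ n := by
      by_contra hcon
      push Not at hcon
      have := hE p (E.coeff p).natDegree (by omega)
      rw [coeff_natDegree, leadingCoeff_eq_zero] at this
      exact h0 this
    calc (E.coeff p * f ^ p).natDegree ≤ (E.coeff p).natDegree + (f ^ p).natDegree := natDegree_mul_le
      _ ≤ (E.coeff p).natDegree + p * f.natDegree := by gcongr; exact natDegree_pow_le
      _ ≤ (E.coeff p).natDegree + p * 1 := by gcongr
      _ ≤ n := by omega

/-- the affine linear function `b + c Y` -/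
noncomputable def lin (s : K × K) : K[X] := C s.1 + C s.2 * X

theorem natDegree_lin (s : K × K) : (lin s).natDegree ≤ 1 := by
  unfold lin
  rw [add_comm]
  exact natDegree_linear_le

theorem lin_injective : Function.Injective (lin : K × K → K[X]) := by
  intro s t h
  unfold lin at h
  have h0 := congrArg (fun p : K[X] => p.coeff 0) h
  have h1 := congrArg (fun p : K[X] => p.coeff 1) h
  simp [coeff_C] at h0 h1
  exact Prod.ext h0 h1

theorem lin_sub_C (s : K × K) (y : K) :
    lin s - C (s.1 + s.2 * y) = C s.2 * (X - C y) := by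
  unfold lin
  simp only [C_add, C_mul]
  ring

theorem lin_sub_lin {s i : K × K} {y : K} (h : s.1 + s.2 * y = i.1 + i.2 * y) :
    lin s - lin i = C (s.2 - i.2) * (X - C y) := by
  have h1 := lin_sub_C s y
  have h2 := lin_sub_C i y
  rw [← h] at h2
  calc lin s - lin i = (lin s - C (s.1 + s.2 * y)) - (lin i - C (s.1 + s.2 * y)) := by ring
    _ = C (s.2 - i.2) * (X - C y) := by rw [h1, h2, C_sub]; ring

/-- factor theorem for several roots -/
theorem prod_dvd_of_eval_eq_zero {G : K[X][X]} (L : Finset (K × K))
    (h : ∀ i ∈ L, G.eval (lin i) = 0) : (∏ i ∈ L, (X - C (lin i))) ∣ G := by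
  classical
  rcases eq_or_ne G 0 with rfl | hG
  · exact dvd_zero _
  have hle : (L.val.map lin) ≤ G.roots := by
    rw [Multiset.le_iff_subset (L.nodup.map lin_injective)]
    intro a ha
    rw [Multiset.mem_map] at ha
    obtain ⟨i, hi, rfl⟩ := ha
    rw [mem_roots hG]
    exact h i hi
  have := (Multiset.prod_X_sub_C_dvd_iff_le_roots hG (L.val.map lin)).2 hle
  rw [Multiset.map_map] at this
  exact this

variable (D : Finset K)

/-- `Q = ∏_{y ∈ D} (Y - y)` -/
noncomputable def QQ : K[X] := ∏ y ∈ D, (X - C y)

/-- `Q / (Y - y)` -/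
noncomputable def BB [DecidableEq K] (y : K) : K[X] := ∏ z ∈ D.erase y, (X - C z)

theorem QQ_eq [DecidableEq K] {y : K} (hy : y ∈ D) : QQ D = (X - C y) * BB D y := by
  unfold QQ BB
  exact (Finset.mul_prod_erase D (fun z => (X - C z : K[X])) hy).symm

theorem QQ_monic : (QQ D).Monic := monic_prod_of_monic _ _ fun y _ => monic_X_sub_C y

theorem QQ_natDegree : (QQ D).natDegree = D.card := by
  unfold QQ
  rw [natDegree_prod_of_monic _ _ fun y _ => monic_X_sub_C y]
  simp

/-- divisibility in the induction step -/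
theorem step_dvd (S : Finset (K × K)) (s : K × K)
    (hs : ∀ i ∈ S, s.2 ≠ i.2 ∧ ∃ y ∈ D, s.1 + s.2 * y = i.1 + i.2 * y)
    (A : K[X][X]) (hA : ∀ i ∈ S, A.eval (lin i) = C i.2 * QQ D) :
    (∏ i ∈ S, (lin s - lin i)) ∣ (A.eval (lin s) - C s.2 * QQ D) := by
  classical
  choose! hne y hyD hy using hs
  rw [← Finset.prod_fiberwise_of_maps_to (s := S) (t := D) (g := y) (fun i hi => hyD i hi)]
  apply Finset.prod_dvd_of_coprime
  · intro z _ w _ hzw
    refine IsCoprime.prod_left fun i hi => IsCoprime.prod_right fun j hj => ?_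
    rw [Finset.mem_filter] at hi hj
    rw [lin_sub_lin (hy i hi.1), lin_sub_lin (hy j hj.1), hi.2, hj.2]
    have hu : IsUnit (C (s.2 - i.2) : K[X]) :=
      isUnit_C.2 (isUnit_iff_ne_zero.2 (sub_ne_zero.2 (hne i hi.1)))
    have hv : IsUnit (C (s.2 - j.2) : K[X]) :=
      isUnit_C.2 (isUnit_iff_ne_zero.2 (sub_ne_zero.2 (hne j hj.1)))
    rw [isCoprime_mul_unit_left_left hu, isCoprime_mul_unit_left_right hv]
    exact isCoprime_X_sub_C_of_isUnit_sub (isUnit_iff_ne_zero.2 (sub_ne_zero.2 hzw))
  · intro z hz
    set v : K := s.1 + s.2 * z with hv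
    have hQ := QQ_eq D hz
    have hdvd : (∏ i ∈ S.filter (fun i => y i = z), (X - C (lin i))) ∣
        (A - (X - C (C v)) * C (BB D z)) := by
      apply prod_dvd_of_eval_eq_zero
      intro i hi
      rw [Finset.mem_filter] at hi
      have h1 := hy i hi.1
      rw [hi.2] at h1
      have h2 := lin_sub_C i z
      rw [← h1, ← hv] at h2
      simp only [eval_sub, eval_mul, eval_X, eval_C]
      rw [hA i hi.1, h2, hQ]
      ring
    have h3 := map_dvd (evalRingHom (lin s)) hdvd
    rw [map_prod] at h3
    simp only [coe_evalRingHom, eval_sub, eval_mul, eval_X, eval_C] at h3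
    have h4 := lin_sub_C s z
    rw [← hv] at h4
    rw [h4] at h3
    rw [hQ]
    convert h3 using 1
    ring

/-- existence of the tangent vector field, with its degree bound -/
theorem exists_field (S : Finset (K × K)) (hD : D.Nonempty)
    (hS : ∀ s ∈ S, ∀ i ∈ S, s ≠ i → s.2 ≠ i.2 ∧ ∃ y ∈ D, s.1 + s.2 * y = i.1 + i.2 * y) :
    ∃ E : K[X][X], TD E (D.card - 1) ∧
      ∀ i ∈ S, (X * C (X ^ (D.card - 1)) + E).eval (lin i) = C i.2 * QQ D := by
  classical
  induction S using Finset.induction_on with
  | empty => exact ⟨0, TD_zero _, by simp⟩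
  | insert s S hsS ih =>
    obtain ⟨E, hE, hEv⟩ := ih fun a ha b hb hab =>
      hS a (Finset.mem_insert_of_mem ha) b (Finset.mem_insert_of_mem hb) hab
    have hs : ∀ i ∈ S, s.2 ≠ i.2 ∧ ∃ y ∈ D, s.1 + s.2 * y = i.1 + i.2 * y := fun i hi =>
      hS s (Finset.mem_insert_self s S) i (Finset.mem_insert_of_mem hi)
        (fun h => hsS (h ▸ hi))
    obtain ⟨γ, hγ⟩ := step_dvd D S s hs _ hEv
    have hcard : 1 ≤ D.card := hD.card_pos
    -- degree of the right-hand side
    have hN : ((X * C (X ^ (D.card - 1)) + E).eval (lin s) - C s.2 * QQ D).natDegree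
        ≤ D.card - 1 := by
      have h1 : (X * C (X ^ (D.card - 1)) + E).eval (lin s) - C s.2 * QQ D
          = C s.1 * X ^ (D.card - 1) + C s.2 * (X ^ D.card - QQ D) + E.eval (lin s) := by
        simp only [eval_add, eval_mul, eval_X, eval_C]
        have : (X : K[X]) ^ D.card = X * X ^ (D.card - 1) := by
          rw [← pow_succ']
          congr 1
          omega
        rw [this]
        unfold lin
        ring
      rw [h1]
      have h2 : (X ^ D.card - QQ D : K[X]).natDegree ≤ D.card - 1 := by
        have hlt : (X ^ D.card - QQ D : K[X]).degree < (D.card : WithBot ℕ) := by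
          have hd : (X ^ D.card : K[X]).degree = (QQ D).degree := by
            rw [degree_X_pow, degree_eq_natDegree (QQ_monic D).ne_zero, QQ_natDegree]
          have := degree_sub_lt_left hd (pow_ne_zero _ X_ne_zero)
            (by rw [leadingCoeff_X_pow, (QQ_monic D).leadingCoeff])
          rwa [degree_X_pow] at this
        rcases eq_or_ne (X ^ D.card - QQ D : K[X]) 0 with h0 | h0
        · rw [h0]; simp
        · rw [degree_eq_natDegree h0] at hlt
          have : (X ^ D.card - QQ D : K[X]).natDegree < D.card := by exact_mod_cast hlt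
          omega
      refine (natDegree_add_le _ _).trans (max_le ((natDegree_add_le _ _).trans (max_le ?_ ?_)) ?_)
      · exact natDegree_C_mul_X_pow_le _ _
      · exact (natDegree_C_mul_le _ _).trans h2
      · exact hE.natDegree_eval (natDegree_lin s)
    refine ⟨E - C γ * ∏ i ∈ S, (X - C (lin i)), ?_, ?_⟩
    · refine hE.sub ?_
      rcases eq_or_ne γ 0 with rfl | hγ0
      · simpa using TD_zero _
      · have hfac : ∀ i ∈ S, (lin s - lin i).natDegree = 1 ∧ lin s - lin i ≠ 0 := by
          intro i hi
          obtain ⟨hne, y, _, hy⟩ := hs i hi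
          rw [lin_sub_lin hy]
          have h0 : s.2 - i.2 ≠ 0 := sub_ne_zero.2 hne
          refine ⟨?_, mul_ne_zero (C_ne_zero.2 h0) (X_sub_C_ne_zero y)⟩
          rw [natDegree_C_mul h0, natDegree_X_sub_C]
        have hprod : (∏ i ∈ S, (lin s - lin i)).natDegree = S.card := by
          rw [natDegree_prod _ _ fun i hi => (hfac i hi).2,
            Finset.sum_congr rfl fun i hi => (hfac i hi).1]
          simp
        have hdeg : S.card + γ.natDegree ≤ D.card - 1 := by
          rw [← hprod, ← natDegree_mul (Finset.prod_ne_zero_iff.2 fun i hi => (hfac i hi).2) hγ0,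
            ← hγ]
          exact hN
        exact ((TD_C le_rfl).mul (TD_prod S lin fun i _ => natDegree_lin i)).mono (by omega)
    · intro i hi
      have key : (X * C (X ^ (D.card - 1)) + (E - C γ * ∏ j ∈ S, (X - C (lin j)))).eval (lin i)
          = (X * C (X ^ (D.card - 1)) + E).eval (lin i) - γ * ∏ j ∈ S, (lin i - lin j) := by
        simp only [eval_add, eval_sub, eval_mul, eval_X, eval_C, eval_prod]
        ring
      rw [key]
      rcases Finset.mem_insert.1 hi with rfl | hiS
      · rw [mul_comm γ, ← hγ]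
        ring
      · rw [Finset.prod_eq_zero hiS (sub_self (lin i)), mul_zero, sub_zero]
        exact hEv i hiS

/-- the main affine statement: if the zero function meets another member of `S` at every point of
`D`, then `(D.card : K) = 1`. -/
theorem card_eq_one (S : Finset (K × K)) (hD : D.Nonempty)
    (hS : ∀ s ∈ S, ∀ i ∈ S, s ≠ i → s.2 ≠ i.2 ∧ ∃ y ∈ D, s.1 + s.2 * y = i.1 + i.2 * y)
    (h0 : ((0 : K), (0 : K)) ∈ S)
    (hsee : ∀ y ∈ D, ∃ s ∈ S, s ≠ (0, 0) ∧ s.1 + s.2 * y = 0) :
    (D.card : K) = 1 := by
  classical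
  obtain ⟨E, hE, hEv⟩ := exists_field D S hD hS
  set A : K[X][X] := X * C (X ^ (D.card - 1)) + E with hAdef
  set β : K[X] := A.coeff 1 with hβ
  have hcard : 1 ≤ D.card := hD.card_pos
  have hβ' : β = X ^ (D.card - 1) + E.coeff 1 := by
    rw [hβ, hAdef, coeff_add, mul_comm, coeff_C_mul, coeff_X_one, mul_one]
  have hA0 : A.coeff 0 = 0 := by
    have := hEv _ h0
    simpa [lin, coeff_zero_eq_eval_zero] using this
  have hval : ∀ y ∈ D, β.eval y = (BB D y).eval y := by
    intro y hy
    obtain ⟨s, hsS, hs0, hsy⟩ := hsee y hy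
    have hs2 : s.2 ≠ 0 := (hS s hsS _ h0 hs0).1
    have hl : lin s = C s.2 * (X - C y) := by
      have := lin_sub_C s y
      rwa [hsy, C_0, sub_zero] at this
    have hl0 : lin s ≠ 0 := by
      rw [hl]
      exact mul_ne_zero (C_ne_zero.2 hs2) (X_sub_C_ne_zero y)
    obtain ⟨G, hG⟩ : (X : K[X][X]) ∣ A - X * C (BB D y) := by
      rw [X_dvd_iff, coeff_sub, hA0]
      simp
    have hGl : G.eval (lin s) = 0 := by
      have h1 := congrArg (fun P : K[X][X] => P.eval (lin s)) hG
      simp only [eval_sub, eval_mul, eval_X, eval_C] at h1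
      rw [hEv s hsS, QQ_eq D hy] at h1
      have h2 : C s.2 * ((X - C y) * BB D y) - lin s * BB D y = 0 := by
        rw [hl]; ring
      rw [h2] at h1
      exact (mul_eq_zero.1 h1.symm).resolve_left hl0
    obtain ⟨H, hH⟩ := dvd_iff_isRoot.2 hGl
    have hc : β - BB D y = - (lin s * H.coeff 0) := by
      have h1 := congrArg (fun P : K[X][X] => P.coeff 1) hG
      simp only [coeff_sub, coeff_X_mul, coeff_C_zero] at h1
      rw [hH, mul_coeff_zero] at h1
      rw [hβ, h1]
      simp
    have h5 := congrArg (fun P : K[X] => P.eval y) hc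
    simp only [eval_sub, eval_neg, eval_mul] at h5
    rw [hl] at h5
    simp only [eval_mul, eval_sub, eval_X, eval_C, sub_self, mul_zero, zero_mul, neg_zero] at h5
    exact sub_eq_zero.1 h5
  have hQval : ∀ y ∈ D, (derivative (QQ D)).eval y = (BB D y).eval y := by
    intro y hy
    rw [QQ_eq D hy, derivative_mul]
    simp
  have hβdeg : β.natDegree ≤ D.card - 1 := by
    rw [hβ']
    refine (natDegree_add_le _ _).trans (max_le (natDegree_X_pow_le _) ?_)
    rw [natDegree_le_iff_coeff_eq_zero]
    intro q hq
    exact hE 1 q (by omega)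
  have hβlead : β.coeff (D.card - 1) = 1 := by
    rw [hβ', coeff_add, coeff_X_pow, if_pos rfl, hE 1 (D.card - 1) (by omega), add_zero]
  have hQlead : (derivative (QQ D)).coeff (D.card - 1) = (D.card : K) := by
    rw [coeff_derivative]
    have h1 : D.card - 1 + 1 = D.card := by omega
    have h2 : (QQ D).coeff D.card = 1 := by
      have := (QQ_monic D).coeff_natDegree
      rwa [QQ_natDegree] at this
    rw [h1, h2, one_mul]
    have : ((D.card - 1 : ℕ) : K) + 1 = ((D.card - 1 + 1 : ℕ) : K) := by push_cast; ring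
    rw [this, h1]
  have heq : β = derivative (QQ D) := by
    have hQdeg : (derivative (QQ D)).natDegree ≤ D.card - 1 := by
      have := natDegree_derivative_le (QQ D)
      rwa [QQ_natDegree] at this
    have hlt : (β - derivative (QQ D)).natDegree < D.card := by
      have := natDegree_sub_le β (derivative (QQ D))
      omega
    have hz : β - derivative (QQ D) = 0 := by
      apply eq_zero_of_natDegree_lt_card_of_eval_eq_zero' _ D _ hlt
      intro y hy
      rw [eval_sub, hval y hy, hQval y hy, sub_self]
    exact sub_eq_zero.1 hz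
  rw [← hQlead, ← heq, hβlead]

end Pool.Agent.H.MP7f22d3
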