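import Pool.Agent.H.MP_7f22d3_co.Core

set_option autoImplicit false

/-!
# Double points of supersolvable line arrangements, `MP_7f22d3_co`

Over a field of characteristic zero: if `p` is a modular point lying on at least two lines of `A` and
`ℓ₀ ∈ A` does not pass through `p`, then `ℓ₀` contains a point lying on exactly two lines of `A`.
-/

open Matrix

namespace Pool.Agent.H.MP7f22d3

variable {K : Type*} [Field K]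

abbrev PP (K : Type*) [Field K] := Projectivization K (Fin 3 → K)

theorem rep_mk_dot {v : Fin 3 → K} (hv : v ≠ 0) (x : Fin 3 → K) :
    (Projectivization.mk K v hv).rep ⬝ᵥ x = 0 ↔ v ⬝ᵥ x = 0 := by
  obtain ⟨a, ha⟩ := Projectivization.exists_smul_eq_mk_rep K v hv
  rw [← ha, Units.smul_def, smul_dotProduct, smul_eq_mul, mul_eq_zero]
  simp

theorem eq_of_smul_rep {ℓ ℓ' : PP K} {α β : K} (hα : α ≠ 0)
    (h : α • ℓ.rep = β • ℓ'.rep) : ℓ = ℓ' := by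
  rw [← Projectivization.mk_rep ℓ, ← Projectivization.mk_rep ℓ',
    Projectivization.mk_eq_mk_iff' K _ _ ℓ.rep_nonzero ℓ'.rep_nonzero]
  refine ⟨α⁻¹ * β, ?_⟩
  rw [mul_smul, ← h, smul_smul, inv_mul_cancel₀ hα, one_smul]

/-- a basis `u₁, u₂` of the plane `w^⊥`, completed by `P` -/
theorem exists_frame (P w : Fin 3 → K) (hPw : P ⬝ᵥ w ≠ 0) :
    ∃ u₁ u₂ : Fin 3 → K, u₁ ⬝ᵥ w = 0 ∧ u₂ ⬝ᵥ w = 0 ∧
      (∀ a b : K, a • u₁ + b • u₂ = 0 → a = 0 ∧ b = 0) ∧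
      (∀ x : Fin 3 → K, P ⬝ᵥ x = 0 → u₁ ⬝ᵥ x = 0 → u₂ ⬝ᵥ x = 0 → x = 0) := by
  classical
  let φ : (Fin 3 → K) →ₗ[K] K := (dotProductBilin K K).flip w
  have hφ : ∀ v, φ v = v ⬝ᵥ w := fun v => rfl
  have hne : φ ≠ 0 := by
    intro h
    apply hPw
    rw [← hφ, h, LinearMap.zero_apply]
  have hfr : Module.finrank K (LinearMap.ker φ) = 2 := by
    have h1 := LinearMap.finrank_range_add_finrank_ker φ
    have h2 : LinearMap.range φ = ⊤ := LinearMap.range_eq_top.2 (LinearMap.surjective hne)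
    rw [h2, finrank_top, Module.finrank_self, Module.finrank_fin_fun] at h1
    omega
  let b := Module.finBasisOfFinrankEq K (LinearMap.ker φ) hfr
  refine ⟨(b 0 : Fin 3 → K), (b 1 : Fin 3 → K), ?_, ?_, ?_, ?_⟩
  · have := (b 0).2
    rwa [LinearMap.mem_ker, hφ] at this
  · have := (b 1).2
    rwa [LinearMap.mem_ker, hφ] at this
  · intro a c hac
    have h1 : a • b 0 + c • b 1 = 0 := by
      apply Subtype.ext
      simpa using hac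
    have h2 := Fintype.linearIndependent_iff.1 b.linearIndependent ![a, c]
      (by simpa [Fin.sum_univ_two] using h1)
    exact ⟨by simpa using h2 0, by simpa using h2 1⟩
  · intro x hPx h1 h2
    have hker : ∀ v : Fin 3 → K, v ⬝ᵥ w = 0 → v ⬝ᵥ x = 0 := by
      intro v hv
      let v' : LinearMap.ker φ := ⟨v, by rw [LinearMap.mem_ker, hφ]; exact hv⟩
      have h3 := b.sum_repr v'
      rw [Fin.sum_univ_two] at h3
      have h4 : v = b.repr v' 0 • (b 0 : Fin 3 → K) + b.repr v' 1 • (b 1 : Fin 3 → K) := by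
        have := congrArg (fun z : LinearMap.ker φ => (z : Fin 3 → K)) h3
        simpa using this.symm
      rw [h4, add_dotProduct, smul_dotProduct, smul_dotProduct, h1, h2]
      simp
    have hall : ∀ v : Fin 3 → K, v ⬝ᵥ x = 0 := by
      intro v
      have h5 := hker (v - ((v ⬝ᵥ w) / (P ⬝ᵥ w)) • P) (by
        rw [sub_dotProduct, smul_dotProduct, smul_eq_mul, div_mul_cancel₀ _ hPw, sub_self])
      rw [sub_dotProduct, smul_dotProduct, hPx, smul_zero, sub_zero] at h5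
      exact h5
    exact dotProduct_eq_zero x (fun v => by rw [dotProduct_comm]; exact hall v)

/-- main geometric statement -/
theorem exists_double_point [CharZero K] (A : Finset (PP K)) (p : PP K)
    (hp2 : ∃ ℓ₁ ∈ A, ∃ ℓ₂ ∈ A, ℓ₁ ≠ ℓ₂ ∧ p.rep ⬝ᵥ ℓ₁.rep = 0 ∧ p.rep ⬝ᵥ ℓ₂.rep = 0)
    (hmod : ∀ q : PP K,
      (∃ m₁ ∈ A, ∃ m₂ ∈ A, m₁ ≠ m₂ ∧ q.rep ⬝ᵥ m₁.rep = 0 ∧ q.rep ⬝ᵥ m₂.rep = 0) →
      q ≠ p → ∃ ℓ ∈ A, p.rep ⬝ᵥ ℓ.rep = 0 ∧ q.rep ⬝ᵥ ℓ.rep = 0)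
    (ℓ₀ : PP K) (hℓ₀ : ℓ₀ ∈ A) (hpℓ₀ : p.rep ⬝ᵥ ℓ₀.rep ≠ 0) :
    ∃ q : PP K, ∃ ℓ₁ ∈ A, ℓ₀ ≠ ℓ₁ ∧ q.rep ⬝ᵥ ℓ₀.rep = 0 ∧ q.rep ⬝ᵥ ℓ₁.rep = 0 ∧
      ∀ ℓ ∈ A, q.rep ⬝ᵥ ℓ.rep = 0 → ℓ = ℓ₀ ∨ ℓ = ℓ₁ := by
  classical
  by_contra hcon
  push Not at hcon
  set P : Fin 3 → K := p.rep with hP
  set w : Fin 3 → K := ℓ₀.rep with hw
  obtain ⟨u₁, u₂, hu₁, hu₂, hind, hdet⟩ := exists_frame P w hpℓ₀
  -- the lines through `p`
  set Ap : Finset (PP K) := A.filter (fun ℓ => P ⬝ᵥ ℓ.rep = 0) with hAp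
  -- choice of the generic vector
  obtain ⟨t, ht⟩ := Infinite.exists_notMem_finset
    (Ap.image (fun ℓ => -(u₁ ⬝ᵥ ℓ.rep) / (u₂ ⬝ᵥ ℓ.rep)))
  set e₂ : Fin 3 → K := u₁ + t • u₂ with he₂
  set e₃ : Fin 3 → K := u₂ with he₃
  have he₂w : e₂ ⬝ᵥ w = 0 := by
    rw [he₂, add_dotProduct, smul_dotProduct, hu₁, hu₂]; simp
  have he₃w : e₃ ⬝ᵥ w = 0 := hu₂
  have hdet' : ∀ x : Fin 3 → K, P ⬝ᵥ x = 0 → e₂ ⬝ᵥ x = 0 → e₃ ⬝ᵥ x = 0 → x = 0 := by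
    intro x h1 h2 h3
    refine hdet x h1 ?_ h3
    rw [he₂, add_dotProduct, smul_dotProduct, h3, smul_zero, add_zero] at h2
    exact h2
  have hgen : ∀ ℓ ∈ Ap, e₂ ⬝ᵥ ℓ.rep ≠ 0 := by
    intro ℓ hℓ h0
    have hPℓ : P ⬝ᵥ ℓ.rep = 0 := (Finset.mem_filter.1 hℓ).2
    by_cases h3 : u₂ ⬝ᵥ ℓ.rep = 0
    · exact ℓ.rep_nonzero (hdet' _ hPℓ h0 h3)
    · apply ht
      rw [Finset.mem_image]
      refine ⟨ℓ, hℓ, ?_⟩
      rw [he₂, add_dotProduct, smul_dotProduct, smul_eq_mul] at h0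
      rw [div_eq_iff h3]
      linear_combination -h0
  have hne : ∀ y : K, y • e₂ + e₃ ≠ 0 := by
    intro y h
    have h1 : y • u₁ + (y * t + 1) • u₂ = 0 := by
      rw [← h, he₂, he₃, smul_add, smul_smul, add_smul, one_smul, add_assoc]
    obtain ⟨h2, h3⟩ := hind _ _ h1
    rw [h2] at h3
    simp at h3
  -- the parameter of a line through `p`
  let Y : PP K → K := fun ℓ => -(e₃ ⬝ᵥ ℓ.rep) / (e₂ ⬝ᵥ ℓ.rep)
  have hY : ∀ ℓ ∈ Ap, ∀ y : K, (y • e₂ + e₃) ⬝ᵥ ℓ.rep = 0 ↔ y = Y ℓ := by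
    intro ℓ hℓ y
    have h1 := hgen ℓ hℓ
    rw [add_dotProduct, smul_dotProduct, smul_eq_mul]
    simp only [Y]
    rw [eq_div_iff h1]
    constructor
    · intro h; linear_combination h
    · intro h; linear_combination h
  have hYinj : ∀ ℓ ∈ Ap, ∀ ℓ' ∈ Ap, Y ℓ = Y ℓ' → ℓ = ℓ' := by
    intro ℓ hℓ ℓ' hℓ' h
    have h1 := hgen ℓ hℓ
    have h1' := hgen ℓ' hℓ'
    have hPℓ : P ⬝ᵥ ℓ.rep = 0 := (Finset.mem_filter.1 hℓ).2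
    have hPℓ' : P ⬝ᵥ ℓ'.rep = 0 := (Finset.mem_filter.1 hℓ').2
    apply eq_of_smul_rep (α := e₂ ⬝ᵥ ℓ'.rep) (β := e₂ ⬝ᵥ ℓ.rep) h1'
    rw [← sub_eq_zero]
    apply hdet'
    · rw [dotProduct_sub, dotProduct_smul, dotProduct_smul, hPℓ, hPℓ']; simp
    · rw [dotProduct_sub, dotProduct_smul, dotProduct_smul, smul_eq_mul, smul_eq_mul]; ring
    · rw [dotProduct_sub, dotProduct_smul, dotProduct_smul, smul_eq_mul, smul_eq_mul]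
      simp only [Y] at h
      rw [div_eq_div_iff h1 h1'] at h
      linear_combination -h
  set D : Finset K := Ap.image Y with hD
  obtain ⟨a₁, ha₁, a₂, ha₂, ha12, hPa₁, hPa₂⟩ := hp2
  have ha₁p : a₁ ∈ Ap := Finset.mem_filter.2 ⟨ha₁, hPa₁⟩
  have ha₂p : a₂ ∈ Ap := Finset.mem_filter.2 ⟨ha₂, hPa₂⟩
  have hDcard : 1 < D.card := by
    rw [Finset.one_lt_card]
    exact ⟨Y a₁, Finset.mem_image_of_mem _ ha₁p, Y a₂, Finset.mem_image_of_mem _ ha₂p,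
      fun h => ha12 (hYinj _ ha₁p _ ha₂p h)⟩
  -- the other lines
  let σ : PP K → K × K := fun ℓ =>
    (-(e₃ ⬝ᵥ ℓ.rep) / (P ⬝ᵥ ℓ.rep), -(e₂ ⬝ᵥ ℓ.rep) / (P ⬝ᵥ ℓ.rep))
  set S : Finset (K × K) := (A.filter (fun ℓ => P ⬝ᵥ ℓ.rep ≠ 0)).image σ with hSdef
  have hσ3 : ∀ ℓ : PP K, P ⬝ᵥ ℓ.rep ≠ 0 → e₃ ⬝ᵥ ℓ.rep = -((σ ℓ).1 * (P ⬝ᵥ ℓ.rep)) := by
    intro ℓ hℓ
    simp only [σ]
    rw [div_mul_cancel₀ _ hℓ, neg_neg]
  have hσ2 : ∀ ℓ : PP K, P ⬝ᵥ ℓ.rep ≠ 0 → e₂ ⬝ᵥ ℓ.rep = -((σ ℓ).2 * (P ⬝ᵥ ℓ.rep)) := by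
    intro ℓ hℓ
    simp only [σ]
    rw [div_mul_cancel₀ _ hℓ, neg_neg]
  -- crossing points different from `p` are on lines through `p`
  have hcross : ∀ v : Fin 3 → K, ∀ ℓ ∈ A, ∀ ℓ' ∈ A, ℓ ≠ ℓ' → v ⬝ᵥ ℓ.rep = 0 → v ⬝ᵥ ℓ'.rep = 0 →
      (∃ x : Fin 3 → K, P ⬝ᵥ x = 0 ∧ v ⬝ᵥ x ≠ 0) → ∃ ℓ'' ∈ Ap, v ⬝ᵥ ℓ''.rep = 0 := by
    intro v ℓ hℓ ℓ' hℓ' hne' hv hv' hx
    obtain ⟨x, hPx, hvx⟩ := hx
    have hv0 : v ≠ 0 := by
      rintro rfl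
      simp at hvx
    obtain ⟨ℓ'', h1, h2, h3⟩ := hmod (Projectivization.mk K v hv0)
      ⟨ℓ, hℓ, ℓ', hℓ', hne', (rep_mk_dot hv0 _).2 hv, (rep_mk_dot hv0 _).2 hv'⟩ (by
        intro hqp
        apply hvx
        rw [← rep_mk_dot hv0, hqp]
        exact hPx)
    exact ⟨ℓ'', Finset.mem_filter.2 ⟨h1, h2⟩, (rep_mk_dot hv0 _).1 h3⟩
  have hSpair : ∀ s ∈ S, ∀ i ∈ S, s ≠ i →
      s.2 ≠ i.2 ∧ ∃ y ∈ D, s.1 + s.2 * y = i.1 + i.2 * y := by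
    intro s hs i hi hsi
    rw [hSdef, Finset.mem_image] at hs hi
    obtain ⟨ℓ, hℓ, rfl⟩ := hs
    obtain ⟨ℓ', hℓ', rfl⟩ := hi
    rw [Finset.mem_filter] at hℓ hℓ'
    have hℓℓ' : ℓ ≠ ℓ' := fun h => hsi (by rw [h])
    have hslope : (σ ℓ).2 ≠ (σ ℓ').2 := by
      intro heq
      obtain ⟨ℓ'', hℓ'', h0⟩ := hcross (e₂ + (σ ℓ).2 • P) ℓ hℓ.1 ℓ' hℓ'.1 hℓℓ'
        (by rw [add_dotProduct, smul_dotProduct, smul_eq_mul, hσ2 ℓ hℓ.2]; ring)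
        (by rw [add_dotProduct, smul_dotProduct, smul_eq_mul, hσ2 ℓ' hℓ'.2, heq]; ring)
        ⟨a₁.rep, hPa₁, by
          rw [add_dotProduct, smul_dotProduct, hPa₁, smul_zero, add_zero]
          exact hgen _ ha₁p⟩
      rw [add_dotProduct, smul_dotProduct, (Finset.mem_filter.1 hℓ'').2, smul_zero,
        add_zero] at h0
      exact hgen _ hℓ'' h0
    refine ⟨hslope, ?_⟩
    have hsl0 : (σ ℓ).2 - (σ ℓ').2 ≠ 0 := sub_ne_zero.2 hslope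
    set y : K := ((σ ℓ').1 - (σ ℓ).1) / ((σ ℓ).2 - (σ ℓ').2) with hy
    have hyeq : (σ ℓ).1 + (σ ℓ).2 * y = (σ ℓ').1 + (σ ℓ').2 * y := by
      have : y * ((σ ℓ).2 - (σ ℓ').2) = (σ ℓ').1 - (σ ℓ).1 := by
        rw [hy, div_mul_cancel₀ _ hsl0]
      linear_combination this
    refine ⟨y, ?_, hyeq⟩
    have hx : ∃ x : Fin 3 → K, P ⬝ᵥ x = 0 ∧
        (y • e₂ + e₃ + ((σ ℓ).1 + (σ ℓ).2 * y) • P) ⬝ᵥ x ≠ 0 := by
      by_contra hno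
      push Not at hno
      have h1 := hno a₁.rep hPa₁
      have h2 := hno a₂.rep hPa₂
      rw [add_dotProduct, smul_dotProduct, hPa₁, smul_zero, add_zero] at h1
      rw [add_dotProduct, smul_dotProduct, hPa₂, smul_zero, add_zero] at h2
      exact ha12 (hYinj _ ha₁p _ ha₂p (((hY _ ha₁p _).1 h1).symm.trans ((hY _ ha₂p _).1 h2)))
    obtain ⟨ℓ'', hℓ'', h0⟩ := hcross _ ℓ hℓ.1 ℓ' hℓ'.1 hℓℓ'
      (by
        rw [add_dotProduct, add_dotProduct, smul_dotProduct, smul_dotProduct, smul_eq_mul,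
          smul_eq_mul, hσ2 ℓ hℓ.2, hσ3 ℓ hℓ.2]
        ring)
      (by
        rw [add_dotProduct, add_dotProduct, smul_dotProduct, smul_dotProduct, smul_eq_mul,
          smul_eq_mul, hσ2 ℓ' hℓ'.2, hσ3 ℓ' hℓ'.2, hyeq]
        ring) hx
    rw [add_dotProduct, smul_dotProduct, (Finset.mem_filter.1 hℓ'').2, smul_zero, add_zero] at h0
    rw [(hY _ hℓ'' _).1 h0]
    exact Finset.mem_image_of_mem _ hℓ''
  have h0S : ((0 : K), (0 : K)) ∈ S := by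
    rw [hSdef, Finset.mem_image]
    refine ⟨ℓ₀, Finset.mem_filter.2 ⟨hℓ₀, hpℓ₀⟩, ?_⟩
    simp only [σ]
    rw [← hw, he₂w, he₃w]
    simp
  have hsee : ∀ y ∈ D, ∃ s ∈ S, s ≠ (0, 0) ∧ s.1 + s.2 * y = 0 := by
    intro y hy
    rw [hD, Finset.mem_image] at hy
    obtain ⟨m, hm, rfl⟩ := hy
    have hv0 := hne (Y m)
    have hmA := (Finset.mem_filter.1 hm).1
    have hmP : P ⬝ᵥ m.rep = 0 := (Finset.mem_filter.1 hm).2
    have hm0 : ℓ₀ ≠ m := by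
      rintro rfl
      exact hpℓ₀ hmP
    obtain ⟨ℓ, hℓA, hℓq, hℓ0, hℓm⟩ := hcon (Projectivization.mk K (Y m • e₂ + e₃) hv0) m hmA hm0
      (by
        rw [rep_mk_dot, add_dotProduct, smul_dotProduct, he₂w, he₃w]
        simp)
      ((rep_mk_dot hv0 _).2 ((hY m hm _).2 rfl))
    rw [rep_mk_dot] at hℓq
    have hPℓ : P ⬝ᵥ ℓ.rep ≠ 0 := by
      intro h
      have hℓp : ℓ ∈ Ap := Finset.mem_filter.2 ⟨hℓA, h⟩
      exact hℓm (hYinj _ hℓp _ hm ((hY ℓ hℓp _).1 hℓq).symm)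
    refine ⟨σ ℓ, ?_, ?_, ?_⟩
    · rw [hSdef]
      exact Finset.mem_image_of_mem _ (Finset.mem_filter.2 ⟨hℓA, hPℓ⟩)
    · intro h
      have h2 := hσ2 ℓ hPℓ
      have h3 := hσ3 ℓ hPℓ
      rw [h] at h2 h3
      simp only [zero_mul, neg_zero] at h2 h3
      apply hℓ0
      apply eq_of_smul_rep (α := P ⬝ᵥ w) (β := P ⬝ᵥ ℓ.rep) hpℓ₀
      rw [← hw, ← sub_eq_zero]
      apply hdet'
      · rw [dotProduct_sub, dotProduct_smul, dotProduct_smul, smul_eq_mul, smul_eq_mul]; ring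
      · rw [dotProduct_sub, dotProduct_smul, dotProduct_smul, h2, he₂w]; simp
      · rw [dotProduct_sub, dotProduct_smul, dotProduct_smul, h3, he₃w]; simp
    · rw [add_dotProduct, smul_dotProduct, smul_eq_mul, hσ2 ℓ hPℓ, hσ3 ℓ hPℓ] at hℓq
      have : (P ⬝ᵥ ℓ.rep) * ((σ ℓ).1 + (σ ℓ).2 * Y m) = 0 := by linear_combination -hℓq
      exact (mul_eq_zero.1 this).resolve_left hPℓ
  have hfin := card_eq_one D S (Finset.card_pos.1 (by omega)) hSpair h0S hsee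
  have : D.card = 1 := by exact_mod_cast hfin
  omega

end Pool.Agent.H.MP7f22d3
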